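import Pool.Agent.N349.LS4

/-!
# The limit sequence of the pattern 1243 (MP_6fb490, Q1)

The numbers `a k` are given by an explicit recursion `c k d t`; they are the values of
`|Av_n^k(1243)|` for all `n ≥ k + 2`.  The generating function `F` of `c` satisfies a functional
equation with two catalytic variables, and `∑ a k X^k = F 1 1`.  Moreover `∑ a k X^k = ∑ κ p`, where
the series `κ p` are determined by a triangular system with explicit `q`-hypergeometric
coefficients.
-/

set_option autoImplicit false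

namespace Pool.Agent.Results.MP_6fb490_co.LimitSequence

open Finset PowerSeries

/-- The inversion number. -/
def inversions {n : ℕ} (π : Equiv.Perm (Fin n)) : ℕ :=
  (univ.filter (fun p : Fin n × Fin n => p.1 < p.2 ∧ π p.2 < π p.1)).card

/-- `π` contains the pattern `1243`. -/
def Contains1243 {n : ℕ} (π : Equiv.Perm (Fin n)) : Prop :=
  ∃ i j k l : Fin n, i < j ∧ j < k ∧ k < l ∧ π i < π j ∧ π j < π l ∧ π l < π k

/-- `|Av_n^k(1243)|`: the number of permutations of size `n` with exactly `k` inversions which avoid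
`1243`. -/
noncomputable def av (n k : ℕ) : ℕ :=
  Nat.card {π : Equiv.Perm (Fin n) // ¬ Contains1243 π ∧ inversions π = k}

/-- The numbers of the recursion: `c k d 0 = 1` if `k = d = 0` and `0` otherwise, and for `t ≥ 1`
`c k d t = [d ≤ t ≤ k] ∑_{j ≤ t} c (k - t) d j + [1 ≤ d < t, d ≤ k + 1] ∑_{i < d} c (k - d + 1) i (t - 1)`.
(`c k d t` counts the `1243`-avoiders with `k` inversions for which `t` is the largest smaller
element of an inversion and `d` is the largest value playing the role of `1` in an occurrence of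
`132`, with `0` if there is none.) -/
def c : ℕ → ℕ → ℕ → ℕ
  | k, d, 0 => if k = 0 ∧ d = 0 then 1 else 0
  | k, d, s + 1 =>
    (if _h : d ≤ s + 1 ∧ s + 1 ≤ k then ∑ j ∈ range (s + 2), c (k - (s + 1)) d j else 0) +
    (if 1 ≤ d ∧ d ≤ s ∧ d ≤ k + 1 then ∑ i ∈ range d, c (k - (d - 1)) i s else 0)
  termination_by k _ t => (k, t)
  decreasing_by
    · exact Prod.Lex.left _ _ (by omega)
    · rcases Nat.eq_or_lt_of_le (Nat.sub_le k (d - 1)) with h | h
      · rw [h]
        exact Prod.Lex.right _ (Nat.lt_succ_self _)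
      · exact Prod.Lex.left _ _ h

/-- The limit sequence: `a k = ∑_{t ≤ k + 1} ∑_{d ≤ t} c k d t`. -/
def a (k : ℕ) : ℕ := ∑ t ∈ range (k + 2), ∑ d ∈ range (t + 1), c k d t

/-- The generating function `f d t = ∑_k c k d t X^k`. -/
noncomputable def f (d t : ℕ) : ℤ⟦X⟧ := PowerSeries.mk (fun k => (c k d t : ℤ))

/-- `F(Y, Z) = ∑_{t} ∑_{d ≤ t} f d t Y^d Z^t`, for arbitrary power series `Y`, `Z` in `X`.  The sum
converges because `X^(t-1)` divides `f d t` (a part of the result): only the terms with `t < n + 2`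
contribute to the coefficient of `X^n`. -/
noncomputable def F (Y Z : ℤ⟦X⟧) : ℤ⟦X⟧ :=
  PowerSeries.mk (fun n => coeff n (∑ t ∈ range (n + 2), ∑ d ∈ range (t + 1), f d t * Y ^ d * Z ^ t))

/-- `κ t = ∑_{d ≤ t} f d t`. -/
noncomputable def kappa (t : ℕ) : ℤ⟦X⟧ := ∑ d ∈ range (t + 1), f d t

/-- `(X; X)_n = (1 - X)(1 - X^2) ⋯ (1 - X^n)`. -/
noncomputable def qp (n : ℕ) : ℤ⟦X⟧ := ∏ i ∈ range n, (1 - X ^ (i + 1))

/-- The inverse of `(X; X)_n`. -/
noncomputable def iqp (n : ℕ) : ℤ⟦X⟧ := ∏ i ∈ range n, invOfUnit (1 - X ^ (i + 1)) 1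

/-- The triangular system, for a sequence `κ` of power series: for every `n`,
`∑_{p ≤ m ≤ n} (-1)^(m-p) X^(C(n-m,2) + C(m-p+1,2) + (n-m)p) (X;X)_m / ((X;X)_(n-m) (X;X)_(m-p)) κ_p
  = X^(C(n,2)) / (X;X)_n`. -/
def System (κ : ℕ → ℤ⟦X⟧) : Prop :=
  ∀ n : ℕ, ∑ m ∈ range (n + 1), X ^ ((n - m) * (n - m - 1) / 2) * qp m * iqp (n - m) *
      ∑ p ∈ range (m + 1), (-1) ^ (m - p) * X ^ ((m - p) * (m - p + 1) / 2) * iqp (m - p) *
        X ^ ((n - m) * p) * κ p = X ^ (n * (n - 1) / 2) * iqp n

theorem c_eq : ∀ k t d : ℕ, c k d t = N349.LS.c k d t := by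
  have h : ∀ N k t d : ℕ, k + t ≤ N → c k d t = N349.LS.c k d t := by
    intro N
    induction N with
    | zero =>
      intro k t d h
      have ht : t = 0 := by omega
      subst ht
      rw [c, N349.LS.c_zero]
    | succ N ih =>
      intro k t d h
      rcases t with _ | s
      · rw [c, N349.LS.c_zero]
      · rw [c, N349.LS.c_succ]
        have h1 : ∀ j ∈ range (s + 2), s + 1 ≤ k →
            c (k - (s + 1)) d j = N349.LS.c (k - (s + 1)) d j := by
          intro j hj hk
          rw [mem_range] at hj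
          exact ih _ _ _ (by omega)
        have h2 : ∀ i, c (k - (d - 1)) i s = N349.LS.c (k - (d - 1)) i s := by
          intro i
          exact ih _ _ _ (by omega)
        congr 1
        · by_cases h3 : d ≤ s + 1 ∧ s + 1 ≤ k
          · rw [dif_pos h3, if_pos h3]
            exact sum_congr rfl (fun j hj => h1 j hj h3.2)
          · rw [dif_neg h3, if_neg h3]
        · by_cases h3 : 1 ≤ d ∧ d ≤ s ∧ d ≤ k + 1
          · rw [if_pos h3, if_pos h3]
            exact sum_congr rfl (fun i _ => h2 i)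
          · rw [if_neg h3, if_neg h3]
  intro k t d
  exact h (k + t) k t d le_rfl

theorem f_eq (d t : ℕ) : f d t = N349.LS.f d t := by
  unfold f N349.LS.f
  simp only [c_eq]

theorem F_eq (Y Z : ℤ⟦X⟧) : F Y Z = N349.LS.F Y Z := by
  unfold F N349.LS.F N349.LS.FT N349.LS.h
  simp only [f_eq, sum_mul]

theorem a_eq (k : ℕ) : a k = N349.LS.a k := by
  unfold a N349.LS.a
  simp only [c_eq]

theorem kappa_eq (t : ℕ) : kappa t = N349.LS.h t 1 := by
  unfold kappa N349.LS.h
  simp only [f_eq, one_pow, mul_one]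

theorem av_eq (n k : ℕ) : av n k = N349.LS.av n k := by
  classical
  unfold av N349.LS.av
  rw [Nat.card_eq_fintype_card, Fintype.card_subtype]
  rfl

theorem system_kappa : System kappa := by
  intro n
  simp only [kappa_eq]
  exact N349.LS.tri n

theorem system_unique {κ κ' : ℕ → ℤ⟦X⟧} (h : System κ) (h' : System κ') : κ' = κ := by
  have key : ∀ n, κ' n = κ n := by
    intro n
    induction n using Nat.strong_induction_on with
    | _ n ih =>
      have e1 := h n
      have e2 := h' n
      rw [sum_range_succ] at e1 e2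
      rw [sum_range_succ _ n] at e1 e2
      have e3 : ∀ m ∈ range n, X ^ ((n - m) * (n - m - 1) / 2) * qp m * iqp (n - m) *
          (∑ p ∈ range (m + 1), (-1) ^ (m - p) * X ^ ((m - p) * (m - p + 1) / 2) * iqp (m - p) *
          X ^ ((n - m) * p) * κ' p) = X ^ ((n - m) * (n - m - 1) / 2) * qp m * iqp (n - m) *
          ∑ p ∈ range (m + 1), (-1) ^ (m - p) * X ^ ((m - p) * (m - p + 1) / 2) * iqp (m - p) *
          X ^ ((n - m) * p) * κ p := by
        intro m hm
        rw [mem_range] at hm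
        congr 1
        apply sum_congr rfl
        intro p hp
        rw [mem_range] at hp
        rw [ih p (by omega)]
      have e4 : ∀ p ∈ range n, (-1) ^ (n - p) * X ^ ((n - p) * (n - p + 1) / 2) * iqp (n - p) *
          X ^ ((n - n) * p) * κ' p = (-1) ^ (n - p) * X ^ ((n - p) * (n - p + 1) / 2) *
          iqp (n - p) * X ^ ((n - n) * p) * κ p := by
        intro p hp
        rw [mem_range] at hp
        rw [ih p hp]
      rw [sum_congr rfl e3, sum_congr rfl e4] at e2
      have e5 : iqp 0 = 1 := by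
        unfold iqp
        simp
      have e6 : qp n * iqp n = 1 := N349.LS.qp_iqp n
      have e7 : qp n * κ' n = qp n * κ n := by
        simp only [Nat.sub_self, zero_mul, Nat.zero_div, pow_zero, one_mul, mul_one, e5] at e1 e2
        linear_combination e2 - e1
      calc κ' n = (qp n * iqp n) * κ' n := by rw [e6, one_mul]
        _ = iqp n * (qp n * κ' n) := by ring
        _ = iqp n * (qp n * κ n) := by rw [e7]
        _ = (qp n * iqp n) * κ n := by ring
        _ = κ n := by rw [e6, one_mul]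
  exact funext key

/-- **MP_6fb490, Q1.** The limit sequence of the pattern `1243`. -/
theorem result :
    (∀ n k : ℕ, k + 2 ≤ n → av n k = a k) ∧
    (∀ Y Z : ℤ⟦X⟧, (1 - X * Y) * (1 - X * Z) * F Y Z =
      Y * Z * (1 - X * Z) * (F (X * Y) Z - F 1 (X * Y * Z)) + (1 - X * Y) * F Y (X * Z)) ∧
    (∀ Y : ℤ⟦X⟧, F Y 0 = 1) ∧
    F 1 1 = PowerSeries.mk (fun k => (a k : ℤ)) ∧
    (∀ d t : ℕ, X ^ (t - 1) ∣ f d t) ∧
    (∀ n : ℕ, qp n * iqp n = 1) ∧
    (∀ κ : ℕ → ℤ⟦X⟧, System κ ↔ κ = kappa) ∧
    (∀ n : ℕ, (a n : ℤ) = coeff n (∑ p ∈ range (n + 2), kappa p)) := by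
  refine ⟨?_, ?_, ?_, ?_, ?_, ?_, ?_, ?_⟩
  · intro n k h
    rw [av_eq, a_eq]
    exact N349.LS.av_eq n k h
  · intro Y Z
    simp only [F_eq]
    exact N349.LS.F_eq Y Z
  · intro Y
    rw [F_eq]
    exact N349.LS.F_zero Y
  · rw [F_eq, N349.LS.F_one]
    simp only [a_eq]
  · intro d t
    rw [f_eq]
    rcases t with _ | _ | t
    · simp
    · simp
    · exact N349.LS.f_dvd d (t + 1 + 1) t le_rfl
  · exact N349.LS.qp_iqp
  · intro κ
    constructor
    · intro h
      exact system_unique system_kappa h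
    · rintro rfl
      exact system_kappa
  · intro n
    unfold a kappa f
    push_cast
    simp only [map_sum, coeff_mk]

end Pool.Agent.Results.MP_6fb490_co.LimitSequence
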